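import Mathlib
import Pool.Graph.R_pool_sql_team_seeded_63374d34.Results.MP_5d2531_al.AutomorphismNormalForm
import Pool.Agent.H91.PC.Sub
import Pool.Agent.H91.PC.Gen

/-!
# No `n`-central polynomial is invariant under `x ↦ x + s y` and `y ↦ y + s x ^ 2`

Let `n` be an odd prime and `K` an infinite field with `2 n ≠ 0` in `K`.
* An `n`-central polynomial `f(x, y)` for `M_n(K)` never commutes with `[x, y]` on `M_n(K)`:
  otherwise the discriminant of the characteristic polynomial of `[X, Y]` would be `± n ^ n` times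
  a square in the polynomial ring of the entries of the generic matrices `X`, `Y`, but there is a
  curve of pairs `(X, Y)` on which it has odd degree.
* A polynomial `f(x, y)` which does not change, as a function on `M_n(K)`, under the automorphisms
  `x ↦ x + s y` and `y ↦ y + s x ^ 2` of `K⟨x, y⟩` commutes with `[x, y]` on `M_n(K)`: the
  derivations `D` of `K⟨x, y⟩` for which `D f` is an identity of `M_n(K)` form a Lie algebra, and
  the Lie algebra generated by `(y, 0)` and `(0, x ^ 2)` contains four times the inner derivation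
  `f ↦ [f, [x, y]]`.
* So no `n`-central polynomial is invariant under both; the known normal form of least bidegree
  `(a, b)` satisfies `a < b`, and it has no invariance `y ↦ y + h(x)` except the known one, for
  constant `h` (characteristic zero).
-/

set_option autoImplicit false

universe u v

namespace Pool.Agent.Results.MP_5d2531_al.StrictBidegree

open Polynomial
open Pool.Agent.Results.MP_5d2531_al.AutomorphismNormalForm (IsNuCentral Bihomogeneous)

/-- Let `n` be an odd prime and `K` an infinite field in which `2` and `n` are not zero.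
1. If `f(x, y)` is `n`-central for `M_n(K)` then `f(X, Y)` does not commute with `X Y - Y X` for
   some `X`, `Y`.
2. If `f(x, y)` is `n`-central and `f(X + s Y, Y) = f(X, Y)` for all `X`, `Y`, `s`, then
   `f(X, Y + s X ^ 2) ≠ f(X, Y)` for some `X`, `Y`, `s`.
3. If there is an `n`-central polynomial for `M_n(K)`, in any set of variables, then the
   lexicographically least bidegree `(a, b)` of the bihomogeneous `n`-central polynomials in two
   variables satisfies `a < b`.  If `f` is an `n`-central polynomial of this bidegree and `h` a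
   polynomial in one variable such that `f(X, Y + h(X)) = f(X, Y)` for all `X`, `Y`, then a
   monomial `T ^ i`, `i ≥ 1`, occurs in `h` only if `i ≥ 3` and the binomial coefficient
   `i (i - 1) / 2` is zero in `K`; if the characteristic of `K` is zero then `h` is constant. -/
theorem result {K : Type u} [Field K] [Infinite K] (h2 : (2 : K) ≠ 0) (n : ℕ) (hn : n.Prime)
    (hn2 : n ≠ 2) (hnK : (n : K) ≠ 0) :
    (∀ f : FreeAlgebra K (Fin 2), IsNuCentral n n f →
      ∃ X Y : Matrix (Fin n) (Fin n) K,
        ¬ Commute (FreeAlgebra.lift K ![X, Y] f) (X * Y - Y * X)) ∧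
    (∀ f : FreeAlgebra K (Fin 2), IsNuCentral n n f →
      (∀ (X Y : Matrix (Fin n) (Fin n) K) (s : K),
        FreeAlgebra.lift K ![X + s • Y, Y] f = FreeAlgebra.lift K ![X, Y] f) →
      ∃ (X Y : Matrix (Fin n) (Fin n) K) (s : K),
        FreeAlgebra.lift K ![X, Y + s • X ^ 2] f ≠ FreeAlgebra.lift K ![X, Y] f) ∧
    (∀ {σ : Type v} (f₀ : FreeAlgebra K σ), IsNuCentral n n f₀ →
      ∃ a b : ℕ, a < b ∧
        (∃ f : FreeAlgebra K (Fin 2), Bihomogeneous a b f ∧ IsNuCentral n n f) ∧
        (∀ a' b' : ℕ, (∃ f : FreeAlgebra K (Fin 2), Bihomogeneous a' b' f ∧ IsNuCentral n n f) →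
          a < a' ∨ a = a' ∧ b ≤ b') ∧
        (∀ f : FreeAlgebra K (Fin 2), Bihomogeneous a b f → IsNuCentral n n f →
          ∀ h : K[X], (∀ X Y : Matrix (Fin n) (Fin n) K,
            FreeAlgebra.lift K ![X, Y + aeval X h] f = FreeAlgebra.lift K ![X, Y] f) →
          (∀ i : ℕ, i ≠ 0 → h.coeff i ≠ 0 → 3 ≤ i ∧ ((i.choose 2 : ℕ) : K) = 0) ∧
          (CharZero K → ∃ c : K, h = C c))) := by
  have main : ∀ f : FreeAlgebra K (Fin 2), IsNuCentral n n f →
      (∀ X Y : Matrix (Fin n) (Fin n) K,
        Commute (FreeAlgebra.lift K ![X, Y] f) (X * Y - Y * X)) → False := by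
    intro f hf hcomm
    have hg := Pool.Agent.N37.NC.good_of_nu hn hnK hf
    refine Pool.Agent.H91.PC.not_commute h2 hn hn2 hnK f hg.1 ?_ hcomm
    obtain ⟨-, ⟨-, p, hp⟩, -⟩ := hf
    refine ⟨p, ?_⟩
    rw [← map_pow]
    exact hp
  have main2 : ∀ f : FreeAlgebra K (Fin 2), IsNuCentral n n f →
      (∀ (X Y : Matrix (Fin n) (Fin n) K) (s : K),
        FreeAlgebra.lift K ![X + s • Y, Y] f = FreeAlgebra.lift K ![X, Y] f) →
      (∀ (X Y : Matrix (Fin n) (Fin n) K) (s : K),
        FreeAlgebra.lift K ![X, Y + s • X ^ 2] f = FreeAlgebra.lift K ![X, Y] f) → False :=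
    fun f hf h1 h3 => main f hf (Pool.Agent.H91.PC.comm_of_inv h2 f h1 h3)
  refine ⟨fun f hf => ?_, fun f hf h1 => ?_, fun {σ} f₀ hf₀ => ?_⟩
  · by_contra hcon
    push Not at hcon
    exact main f hf hcon
  · by_contra hcon
    push Not at hcon
    exact main2 f hf h1 hcon
  obtain ⟨a, b, hex, hmin, hab, -, hinv, -⟩ :=
    Pool.Agent.Results.MP_5d2531_al.AutomorphismNormalForm.result n hn hnK f₀ hf₀
  have hX : ∀ f : FreeAlgebra K (Fin 2), Bihomogeneous a b f → IsNuCentral n n f →
      ∀ (X Y : Matrix (Fin n) (Fin n) K) (g : K[X]),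
        FreeAlgebra.lift K ![X + aeval Y g, Y] f = FreeAlgebra.lift K ![X, Y] f := by
    intro f hfb hf X Y g
    have h3 := hinv f hfb hf X Y g 1 1 0 one_ne_zero
    rw [one_smul, one_smul, map_zero, add_zero, one_pow, one_pow, one_mul, one_smul] at h3
    exact h3
  have hXs : ∀ f : FreeAlgebra K (Fin 2), Bihomogeneous a b f → IsNuCentral n n f →
      ∀ (X Y : Matrix (Fin n) (Fin n) K) (s : K),
        FreeAlgebra.lift K ![X + s • Y, Y] f = FreeAlgebra.lift K ![X, Y] f := by
    intro f hfb hf X Y s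
    have h3 := hX f hfb hf X Y (C s * Polynomial.X)
    rw [map_mul, aeval_C, aeval_X, ← Algebra.smul_def] at h3
    exact h3
  have hlt : a < b := by
    rcases hab.lt_or_eq with h | h
    · exact h
    · exfalso
      subst h
      obtain ⟨f, hfb, hf⟩ := hex
      have hs1 := Pool.Agent.Results.MP_5d2531_al.AutomorphismNormalForm.swap_H hfb
      have hs2 : IsNuCentral n n
          (Pool.Agent.Results.MP_5d2531_al.AutomorphismNormalForm.swap f) :=
        Pool.Agent.N37.NC.nu_of_good hn hnK
          (Pool.Agent.Results.MP_5d2531_al.AutomorphismNormalForm.swap_good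
            (Pool.Agent.N37.NC.good_of_nu hn hnK hf))
      refine main2 f hf (hXs f hfb hf) ?_
      intro X Y s
      have h3 := hX _ hs1 hs2 Y X (C s * Polynomial.X ^ 2)
      rw [Pool.Agent.Results.MP_5d2531_al.AutomorphismNormalForm.swap_eval,
        Pool.Agent.Results.MP_5d2531_al.AutomorphismNormalForm.swap_eval, map_mul, aeval_C,
        map_pow, aeval_X, ← Algebra.smul_def] at h3
      have e1 : ∀ A B : Matrix (Fin n) (Fin n) K,
          (fun c : Fin 2 => (![A, B] : Fin 2 → Matrix (Fin n) (Fin n) K) (c + 1)) = ![B, A] := by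
        intro A B
        funext c
        fin_cases c <;> rfl
      rw [e1, e1] at h3
      exact h3
  refine ⟨a, b, hlt, hex, hmin, ?_⟩
  intro f hfb hf h hh
  have hsc : ∀ (X Y : Matrix (Fin n) (Fin n) K) (α β : K),
      FreeAlgebra.lift K ![α • X, β • Y] f = (α ^ a * β ^ b) • FreeAlgebra.lift K ![X, Y] f :=
    fun X Y α β => Pool.Agent.Results.MP_5d2531_al.AutomorphismNormalForm.scale_H hfb X Y α β
  have hα : ∀ (Y Z : Matrix (Fin n) (Fin n) K) (α : K), α ≠ 0 →
      FreeAlgebra.lift K ![α • Y, Z] f = α ^ a • FreeAlgebra.lift K ![Y, Z] f := by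
    intro Y Z α _
    have h3 := hsc Y Z α 1
    rw [one_smul, one_pow, mul_one] at h3
    exact h3
  have hβ : ∀ (Y Z : Matrix (Fin n) (Fin n) K) (β : K), β ≠ 0 →
      FreeAlgebra.lift K ![Y, β • Z] f = β ^ b • FreeAlgebra.lift K ![Y, Z] f := by
    intro Y Z β _
    have h3 := hsc Y Z 1 β
    rw [one_smul, one_pow, one_mul] at h3
    exact h3
  have htr : ∀ (Y Z : Matrix (Fin n) (Fin n) K) (c : K),
      FreeAlgebra.lift K ![Y + Matrix.scalar (Fin n) c, Z] f = FreeAlgebra.lift K ![Y, Z] f := by
    intro Y Z c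
    have h3 := hX f hfb hf Y Z (C c)
    rw [aeval_C] at h3
    exact h3
  have hsq : X ^ 2 ∉ Pool.Agent.H91.PC.shifts f b hβ := by
    intro hmem
    refine main2 f hf (hXs f hfb hf) ?_
    intro Y Z s
    have h3 := (Pool.Agent.H91.PC.mem_shifts f b hβ _).1
      ((Pool.Agent.H91.PC.shifts f b hβ).smul_mem s hmem) Y Z
    rw [map_smul, map_pow, aeval_X] at h3
    exact h3
  have hone : X ^ 1 ∉ Pool.Agent.H91.PC.shifts f b hβ := by
    intro hmem
    have h3 : ∀ (Y Z : Matrix (Fin n) (Fin n) K) (s : K),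
        FreeAlgebra.lift K ![Y, Z + s • Y] f = FreeAlgebra.lift K ![Y, Z] f := by
      intro Y Z s
      have h3 := (Pool.Agent.H91.PC.mem_shifts f b hβ _).1
        ((Pool.Agent.H91.PC.shifts f b hβ).smul_mem s hmem) Y Z
      rw [map_smul, map_pow, aeval_X, pow_one] at h3
      exact h3
    have hcopy := hf
    obtain ⟨-, ⟨-, p, hp⟩, -⟩ := hcopy
    have hp' : (![p 0, p 1] : Fin 2 → Matrix (Fin n) (Fin n) K) = p := by
      funext i
      fin_cases i <;> rfl
    have hne : FreeAlgebra.lift K ![p 0, p 1] f ≠ 0 := by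
      rw [hp']
      intro h0
      apply hp
      rw [map_pow, h0, zero_pow hn.ne_zero]
    have h4 : ∀ t : K, t ≠ 0 → t ^ (b - a) = 1 := by
      intro t ht
      have h5 := Pool.Agent.H91.PC.diag_inv f (hXs f hfb hf) h3 (p 0) (p 1) t ht
      rw [hsc] at h5
      have h6 : t ^ a * t⁻¹ ^ b = 1 := by
        have h7 : (t ^ a * t⁻¹ ^ b - 1) • FreeAlgebra.lift K ![p 0, p 1] f = 0 := by
          rw [sub_smul, h5, one_smul, sub_self]
        exact sub_eq_zero.1 ((smul_eq_zero.1 h7).resolve_right hne)
      have h7 : t ^ b = t ^ a := by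
        have h8 : t ^ a * t⁻¹ ^ b * t ^ b = t ^ b := by rw [h6, one_mul]
        rw [mul_assoc, ← mul_pow, inv_mul_cancel₀ ht, one_pow, mul_one] at h8
        exact h8.symm
      have h8 : t ^ (b - a) * t ^ a = 1 * t ^ a := by
        rw [← pow_add, Nat.sub_add_cancel hab, h7, one_mul]
      exact mul_right_cancel₀ (pow_ne_zero a ht) h8
    have h5 : (Polynomial.X ^ (b - a) - 1 : K[X]) = 0 := by
      apply eq_zero_of_infinite_isRoot
      refine Set.Infinite.mono (s := {t : K | t ≠ 0}) ?_ ?_
      · intro t ht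
        change (Polynomial.X ^ (b - a) - 1 : K[X]).eval t = 0
        rw [eval_sub, eval_pow, eval_X, eval_one, h4 t ht, sub_self]
      · have : {t : K | t ≠ 0} = ({0} : Set K)ᶜ := by
          ext t
          simp
        rw [this]
        exact (Set.finite_singleton 0).infinite_compl
    have h6 := congrArg natDegree h5
    rw [← C_1, natDegree_X_pow_sub_C, natDegree_zero] at h6
    omega
  have hcoef : ∀ i : ℕ, i ≠ 0 → h.coeff i ≠ 0 → 3 ≤ i ∧ ((i.choose 2 : ℕ) : K) = 0 := by
    intro i hi hci
    have hmem := Pool.Agent.H91.PC.monomial_mem f a b hα hβ h hh i hci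
    have hi1 : i ≠ 1 := by
      rintro rfl
      exact hone hmem
    have hi2 : i ≠ 2 := by
      rintro rfl
      exact hsq hmem
    refine ⟨by omega, ?_⟩
    by_contra hc
    exact hsq (Pool.Agent.H91.PC.square_mem f b htr hβ i (by omega) hc hmem)
  refine ⟨hcoef, fun hchar => ⟨h.coeff 0, ?_⟩⟩
  ext i
  rw [coeff_C]
  split_ifs with hi
  · rw [hi]
  · by_contra hc
    obtain ⟨h3, h4⟩ := hcoef i hi hc
    have h5 : i.choose 2 ≠ 0 := (Nat.choose_pos (by omega)).ne'
    exact h5 (by exact_mod_cast h4)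

end Pool.Agent.Results.MP_5d2531_al.StrictBidegree
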